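import Pool.Agent.P.MP_b50a78_co.Sh.Lab

set_option autoImplicit false

namespace Pool.Agent.P.MP_b50a78_co

section
variable {ι κ : Type} [DecidableEq ι] [DecidableEq κ] {I : Finset ι} {J : Finset κ}
  {L : ι → E →ₗ[ℝ] ℝ} {c : ι → ℝ} {x : κ → E} {τ : κ → Finset ι} {n : κ → ι → κ} {o : κ → ι → ι}

omit [DecidableEq κ] in
/-- the vertices with empty label form a quarter of all vertices -/
theorem Gr.card_none (g : Gr J τ n o) (ℓ : κ → Option ι) (hv : ∀ k ∈ J, Valid τ ℓ k)
    (hf : ∀ k ∈ J, ∀ i ∈ τ k, Flat n o ℓ k i) :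
    J.card = 4 * (J.filter (fun k => ℓ k = none)).card := by
  have h1 : ∑ d ∈ J.sigma τ, wt ℓ d.1 d.2 = 0 := by
    refine Finset.sum_involution (fun d _ => ⟨n d.1 d.2, o d.1 d.2⟩) ?_ ?_ ?_ ?_
    · intro d hd
      rw [Finset.mem_sigma] at hd
      exact g.wt_flat hd.1 hd.2 (hv _ hd.1) (hf _ hd.1 _ hd.2)
    · intro d hd _ he
      rw [Finset.mem_sigma] at hd
      exact g.n_ne hd.1 hd.2 (congrArg Sigma.fst he)
    · intro d hd
      rw [Finset.mem_sigma] at hd ⊢
      exact ⟨g.nJ _ hd.1 _ hd.2, g.o_mem hd.1 hd.2⟩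
    · intro d hd
      rw [Finset.mem_sigma] at hd
      simp only [g.nn _ hd.1 _ hd.2, g.oo _ hd.1 _ hd.2]
  rw [Finset.sum_sigma] at h1
  have h2 : ∑ k ∈ J, ((∑ i ∈ τ k, wt ℓ k i) + 1) =
      ∑ k ∈ J, (if ℓ k = none then (4 : ℤ) else 0) := by
    refine Finset.sum_congr rfl (fun k hk => ?_)
    rw [sum_wt ℓ k (τ k) (hv k hk), g.card k hk]
    split_ifs <;> norm_num
  rw [Finset.sum_add_distrib, h1, ← Finset.sum_filter] at h2
  simp only [Finset.sum_const, nsmul_eq_mul] at h2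
  omega

omit [DecidableEq κ] in
/-- a label is constant along the face it names -/
theorem Gr.lab_face (g : Gr J τ n o) (ℓ : κ → Option ι) (hv : ∀ k ∈ J, Valid τ ℓ k)
    (hf : ∀ k ∈ J, ∀ i ∈ τ k, Flat n o ℓ k i) {y : ι} {k : κ} (hk : k ∈ J) (hl : ℓ k = some y)
    {z : κ} (hz : z ∈ J) (hy : y ∈ τ z) : ℓ z = some y := by
  have := g.conn y (J.filter (fun k => ℓ k = some y))
    (fun k hk => by rw [Finset.mem_filter] at hk; exact ⟨hk.1, hv k hk.1 y hk.2⟩)
    ⟨k, Finset.mem_filter.2 ⟨hk, hl⟩⟩ (by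
      intro k hk i hi hiy
      rw [Finset.mem_filter] at hk ⊢
      refine ⟨g.nJ k hk.1 i hi, ?_⟩
      have := hf k hk.1 i hi
      unfold Flat tr at this
      rw [this, hk.2]
      simp [hiy.symm]) z hz hy
  exact (Finset.mem_filter.1 this).2

/-- two vertices of a face with the same outer neighbour span a triangle with it -/
theorem Gr.tri (g : Gr J τ n o)
    (hu : ∀ k ∈ J, ∀ i ∈ τ k, ∀ k' ∈ J, i ∉ τ k' → (τ k).erase i ⊆ τ k' → n k i = k')
    {f : ι} {k r : κ} (hk : k ∈ J) (hr : r ∈ J) (hfk : f ∈ τ k) (hfr : f ∈ τ r) (hne : k ≠ r)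
    (he : n k f = n r f) :
    ∃ y, J.filter (fun z => y ∈ τ z) = {n k f, k, r} := by
  obtain ⟨m, hm⟩ : ∃ m, m = n k f := ⟨_, rfl⟩
  have hm' : m = n r f := hm.trans he
  have hmJ : m ∈ J := hm ▸ g.nJ k hk f hfk
  obtain ⟨p, hp⟩ : ∃ p, p = o k f := ⟨_, rfl⟩
  obtain ⟨q, hq⟩ : ∃ q, q = o r f := ⟨_, rfl⟩
  have hpm : p ∈ τ m := hp ▸ hm ▸ g.o_mem hk hfk
  have hqm : q ∈ τ m := hq ▸ hm' ▸ g.o_mem hr hfr
  have e1 : n m p = k := hp ▸ hm ▸ g.nn k hk f hfk
  have e2 : n m q = r := hq ▸ hm' ▸ g.nn r hr f hfr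
  have e3 : o m p = f := hp ▸ hm ▸ g.oo k hk f hfk
  have e4 : o m q = f := hq ▸ hm' ▸ g.oo r hr f hfr
  have hpq : q ≠ p := fun h => hne (by rw [← e1, ← e2, h])
  have h1 : (((τ m).erase p).erase q).card = 1 := by
    rw [Finset.card_erase_of_mem (Finset.mem_erase.2 ⟨hpq, hqm⟩), Finset.card_erase_of_mem hpm,
      g.card m hmJ]
  obtain ⟨y, hy⟩ := Finset.card_eq_one.1 h1
  have hy1 : y ∈ ((τ m).erase p).erase q := hy ▸ Finset.mem_singleton_self y
  simp only [Finset.mem_erase] at hy1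
  obtain ⟨hyq, hyp, hym⟩ := hy1
  have tm : ∀ i ∈ τ m, i = p ∨ i = q ∨ i = y := by
    intro i hi
    by_contra hc
    push Not at hc
    have : i ∈ ((τ m).erase p).erase q := by simp [hc.1, hc.2.1, hi]
    rw [hy, Finset.mem_singleton] at this
    exact hc.2.2 this
  have tk : τ k = insert f ((τ m).erase p) := by rw [← e3, ← g.τn m hmJ p hpm, e1]
  have tr' : τ r = insert f ((τ m).erase q) := by rw [← e4, ← g.τn m hmJ q hqm, e2]
  have hpk : p ∉ τ k := hp ▸ g.oN k hk f hfk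
  have hqr : q ∉ τ r := hq ▸ g.oN r hr f hfr
  have hqk : q ∈ τ k := by rw [tk]; simp [hpq, hqm]
  have hpr : p ∈ τ r := by rw [tr']; simp [hpq.symm, hpm]
  have hyk : y ∈ τ k := by rw [tk]; simp [hyp, hym]
  have hyr : y ∈ τ r := by rw [tr']; simp [hyq, hym]
  have tk' : ∀ i ∈ τ k, i = f ∨ i = q ∨ i = y := by
    intro i hi
    rw [tk, Finset.mem_insert, Finset.mem_erase] at hi
    rcases hi with hi | hi
    · exact Or.inl hi
    · exact Or.inr ((tm i hi.2).resolve_left hi.1)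
  have tr'' : ∀ i ∈ τ r, i = f ∨ i = p ∨ i = y := by
    intro i hi
    rw [tr', Finset.mem_insert, Finset.mem_erase] at hi
    rcases hi with hi | hi
    · exact Or.inl hi
    · rcases tm i hi.2 with h | h | h
      · exact Or.inr (Or.inl h)
      · exact absurd h hi.1
      · exact Or.inr (Or.inr h)
  have e5 : n k q = r := hu k hk q hqk r hr hqr (by
    intro i hi
    rw [Finset.mem_erase] at hi
    rcases tk' i hi.2 with h | h | h
    · exact h ▸ hfr
    · exact absurd h hi.1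
    · exact h ▸ hyr)
  have e6 : n r p = k := hu r hr p hpr k hk hpk (by
    intro i hi
    rw [Finset.mem_erase] at hi
    rcases tr'' i hi.2 with h | h | h
    · exact h ▸ hfk
    · exact absurd h hi.1
    · exact h ▸ hyk)
  have hU : ∀ z ∈ ({m, k, r} : Finset κ), z ∈ J ∧ y ∈ τ z := by
    intro z hz
    simp only [Finset.mem_insert, Finset.mem_singleton] at hz
    rcases hz with rfl | rfl | rfl
    · exact ⟨hmJ, hym⟩
    · exact ⟨hk, hyk⟩
    · exact ⟨hr, hyr⟩
  refine ⟨y, ?_⟩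
  rw [← hm]
  ext z
  rw [Finset.mem_filter]
  refine ⟨fun h => g.conn y {m, k, r} hU ⟨m, by simp⟩ ?_ z h.1 h.2, hU z⟩
  intro w hw i hi hiy
  simp only [Finset.mem_insert, Finset.mem_singleton] at hw ⊢
  rcases hw with rfl | rfl | rfl
  · rcases tm i hi with rfl | rfl | rfl
    · exact Or.inr (Or.inl e1)
    · exact Or.inr (Or.inr e2)
    · exact absurd rfl hiy
  · rcases tk' i hi with rfl | rfl | rfl
    · exact Or.inl hm.symm
    · exact Or.inr (Or.inr e5)
    · exact absurd rfl hiy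
  · rcases tr'' i hi with rfl | rfl | rfl
    · exact Or.inl hm'.symm
    · exact Or.inr (Or.inl e6)
    · exact absurd rfl hiy

/-- the counting behind the lower bound -/
theorem Cert.bound (h : Cert I J L c x τ) (f e : ι) (hf : ∃ k ∈ J, f ∈ τ k)
    (he : ∃ k ∈ J, e ∈ τ k) (hex : ∀ i ∈ I, i ≠ f → i ≠ e → 3 ∣ deg J τ i) :
    ∃ (s : ℕ) (G : Finset ι), G ⊆ I ∧ f ∈ G ∧ J.card = 4 * s ∧ ∑ i ∈ G, deg J τ i = 3 * s ∧
      deg J τ f ≤ s + ((I \ G).filter (fun i => deg J τ i = 3)).card := by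
  classical
  obtain ⟨n, o, g, hn⟩ := h.exists_gr
  obtain ⟨ℓ, hv, hfl, hlf⟩ := h.lab g hn f e hf he hex
  have hu : ∀ k ∈ J, ∀ i ∈ τ k, ∀ k' ∈ J, i ∉ τ k' → (τ k).erase i ⊆ τ k' → n k i = k' :=
    fun k hk i hi k' a b d => h.nb_unique hk hi (hn k hk i hi) ⟨a, b, d⟩
  have h4 := g.card_none ℓ hv hfl
  set C := J.filter (fun k => ℓ k = none) with hC
  set G := I.filter (fun i => ∃ k ∈ J, ℓ k = some i) with hG
  obtain ⟨k0, hk0, hfk0⟩ := hf
  refine ⟨C.card, G, Finset.filter_subset _ _,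
    Finset.mem_filter.2 ⟨h.sub k0 hk0 hfk0, k0, hk0, hlf k0 hk0 hfk0⟩, h4, ?_, ?_⟩
  · have e1 : ∑ i ∈ G, deg J τ i = ∑ i ∈ G, ∑ k ∈ J, if ℓ k = some i then 1 else 0 := by
      refine Finset.sum_congr rfl (fun i hi => ?_)
      obtain ⟨-, k, hk, hl⟩ := Finset.mem_filter.1 hi
      rw [← Finset.card_filter]
      unfold deg
      congr 1
      exact Finset.filter_congr (fun z hz =>
        ⟨fun hy => g.lab_face ℓ hv hfl hk hl hz hy, fun hy => hv z hz i hy⟩)
    have e2 : ∑ k ∈ J, ((∑ i ∈ G, if ℓ k = some i then 1 else 0) +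
        if ℓ k = none then 1 else 0) = ∑ k ∈ J, 1 := by
      refine Finset.sum_congr rfl (fun k hk => ?_)
      rcases hl : ℓ k with _ | j
      · simp
      · have : j ∈ G := Finset.mem_filter.2 ⟨h.sub k hk (hv k hk j hl), k, hk, hl⟩
        simp [this]
    have e3 : C.card = ∑ k ∈ J, if ℓ k = none then 1 else 0 := Finset.card_filter _ _
    rw [Finset.sum_add_distrib, ← e3, ← Finset.card_eq_sum_ones, Finset.sum_comm, ← e1] at e2
    omega
  · set F := J.filter (fun k => f ∈ τ k) with hF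
    have hFC : ∀ k ∈ F, n k f ∈ C := by
      intro k hk
      obtain ⟨hk, hfk⟩ := Finset.mem_filter.1 hk
      refine Finset.mem_filter.2 ⟨g.nJ k hk f hfk, ?_⟩
      have := hfl k hk f hfk
      unfold Flat tr at this
      rw [this, hlf k hk hfk]
      simp
    have e1 : ∀ m : κ, ∃ r : κ, (∃ k ∈ F, n k f = m) → r ∈ F ∧ n r f = m := by
      intro m
      by_cases hm : ∃ k ∈ F, n k f = m
      · obtain ⟨k, a, b⟩ := hm
        exact ⟨k, fun _ => ⟨a, b⟩⟩
      · exact ⟨m, fun hh => absurd hh hm⟩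
    choose r hr using e1
    have hr' : ∀ k ∈ F, r (n k f) ∈ F ∧ n (r (n k f)) f = n k f := fun k hk => hr _ ⟨k, hk, rfl⟩
    have e2 : ∀ k : κ, ∃ y : ι, k ∈ F → r (n k f) ≠ k →
        J.filter (fun z => y ∈ τ z) = {n k f, k, r (n k f)} := by
      intro k
      by_cases hk : k ∈ F ∧ r (n k f) ≠ k
      · obtain ⟨a, b⟩ := hr' k hk.1
        obtain ⟨y, hy⟩ := g.tri hu (Finset.mem_filter.1 hk.1).1 (Finset.mem_filter.1 a).1
          (Finset.mem_filter.1 hk.1).2 (Finset.mem_filter.1 a).2 hk.2.symm b.symm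
        exact ⟨y, fun _ _ => hy⟩
      · exact ⟨f, fun a b => absurd ⟨a, b⟩ hk⟩
    choose y hy using e2
    have hCF : ∀ k ∈ F, k ∉ C := by
      intro k hk hc
      obtain ⟨hk, hfk⟩ := Finset.mem_filter.1 hk
      have := (Finset.mem_filter.1 hc).2
      rw [hlf k hk hfk] at this
      simp at this
    have c1 : (F.filter (fun k => r (n k f) = k)).card ≤ C.card := by
      refine Finset.card_le_card_of_injOn (fun k => n k f)
        (fun k hk => hFC k (Finset.mem_filter.1 hk).1) ?_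
      intro k hk k' hk' hkk
      have a := (Finset.mem_filter.1 (Finset.mem_coe.1 hk)).2
      have b := (Finset.mem_filter.1 (Finset.mem_coe.1 hk')).2
      simp only at hkk
      rw [← a, ← b, hkk]
    have c2 : (F.filter (fun k => ¬ r (n k f) = k)).card ≤
        ((I \ G).filter (fun i => deg J τ i = 3)).card := by
      refine Finset.card_le_card_of_injOn y ?_ ?_
      · intro k hk
        obtain ⟨hk, hne⟩ := Finset.mem_filter.1 (Finset.mem_coe.1 hk)
        have e3 := hy k hk hne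
        have hm : n k f ∈ J.filter (fun z => y k ∈ τ z) := by rw [e3]; simp
        obtain ⟨hmJ, hym⟩ := Finset.mem_filter.1 hm
        have hmC := hFC k hk
        refine Finset.mem_coe.2 (Finset.mem_filter.2 ⟨Finset.mem_sdiff.2
          ⟨h.sub _ hmJ hym, fun hg => ?_⟩, ?_⟩)
        · obtain ⟨-, z, hz, hl⟩ := Finset.mem_filter.1 hg
          have := g.lab_face ℓ hv hfl hz hl hmJ hym
          rw [(Finset.mem_filter.1 hmC).2] at this
          simp at this
        · unfold deg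
          rw [e3]
          exact Finset.card_eq_three.2 ⟨n k f, k, r (n k f), fun hh => hCF k hk (hh ▸ hmC),
            fun hh => hCF _ (hr' k hk).1 (hh ▸ hmC), fun hh => hne hh.symm, rfl⟩
      · intro k hk k' hk' hkk
        obtain ⟨hk, hne⟩ := Finset.mem_filter.1 (Finset.mem_coe.1 hk)
        obtain ⟨hk', hne'⟩ := Finset.mem_filter.1 (Finset.mem_coe.1 hk')
        have e3 := hy k hk hne
        have e4 := hy k' hk' hne'
        rw [hkk, e4] at e3
        have : k' ∈ ({n k f, k, r (n k f)} : Finset κ) := by rw [← e3]; simp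
        simp only [Finset.mem_insert, Finset.mem_singleton] at this
        rcases this with a | a | a
        · exact absurd (a ▸ hFC k hk) (hCF k' hk')
        · exact a.symm
        · refine absurd ?_ hne'
          rw [a, (hr' k hk).2]
    have := Finset.card_filter_add_card_filter_not (s := F) (fun k => r (n k f) = k)
    change F.card ≤ _
    omega

end

end Pool.Agent.P.MP_b50a78_co
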