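import Pool.Agent.P.MP_b50a78_co.ThmC

set_option autoImplicit false

namespace Pool.Agent.P.MP_b50a78_co

section
variable {ι κ : Type} [DecidableEq ι] [DecidableEq κ] {I : Finset ι} {J : Finset κ}
  {L : ι → E →ₗ[ℝ] ℝ} {c : ι → ℝ} {x : κ → E} {τ : κ → Finset ι} {n : κ → ι → κ} {o : κ → ι → ι}

/-- a flat labelling that points to the face `f` at all vertices of `f` -/
theorem Gr.lab_of_key (g : Gr J τ n o) {β : Type} [LinearOrder β] (key : κ → β)
    (hinj : ∀ k ∈ J, ∀ k' ∈ J, key k = key k' → k = k')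
    (hle : ∀ k ∈ J, ∀ z ∈ J, (∀ i ∈ τ k, i ∉ τ z → key (n k i) ≤ key k) → key z ≤ key k)
    (hge : ∀ k ∈ J, ∀ z ∈ J, (∀ i ∈ τ k, i ∉ τ z → key k ≤ key (n k i)) → key k ≤ key z)
    (f e : ι) (hex : ∀ k ∈ J, ∀ c ∈ τ k, c ≠ f → c ≠ e → 3 ∣ deg J τ c)
    (b t : κ) (hb : b ∈ J) (ht : t ∈ J) (hfb : f ∈ τ b) (het : e ∈ τ t) (hbt : b ≠ t)
    (hbot : ∀ k ∈ J, key b ≤ key k) (htop : ∀ k ∈ J, key k ≤ key t) :
    ∃ ℓ : κ → Option ι, (∀ k ∈ J, Valid τ ℓ k) ∧ (∀ k ∈ J, ∀ i ∈ τ k, Flat n o ℓ k i) ∧
      ∀ k ∈ J, f ∈ τ k → ℓ k = some f := by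
  have main : ∀ S : Finset κ, S ⊆ J → (∀ k ∈ S, ∀ k' ∈ J, key k' ≤ key k → k' ∈ S) →
      ∃ ℓ : κ → Option ι, (∀ k ∈ S, Valid τ ℓ k) ∧
        (∀ k ∈ S, ∀ i ∈ τ k, n k i ∈ S → Flat n o ℓ k i) ∧ (∀ k ∈ S, f ∈ τ k → ℓ k = some f) := by
    intro S
    induction S using Finset.induction_on_max_value key with
    | empty => exact fun _ _ => ⟨fun _ => none, by simp, by simp, by simp⟩
    | insert v S hvS hmax ih =>
      intro hSJ hdown
      have hvJ : v ∈ J := hSJ (Finset.mem_insert_self _ _)
      have hSJ' : S ⊆ J := fun k hk => hSJ (Finset.mem_insert_of_mem hk)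
      by_cases hvb : v = b
      · have hS : S = ∅ := by
          rw [Finset.eq_empty_iff_forall_notMem]
          intro k hk
          have := hinj k (hSJ' hk) v hvJ (le_antisymm (hmax k hk) (hvb ▸ hbot k (hSJ' hk)))
          exact hvS (this ▸ hk)
        subst hS hvb
        refine ⟨fun _ => some f, ?_, ?_, by simp⟩
        · intro k hk i hi
          simp only [Finset.mem_insert, Finset.notMem_empty, or_false] at hk
          simp only [Option.some.injEq] at hi
          rw [hk, ← hi]
          exact hfb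
        · intro k hk i hi hn
          simp only [Finset.mem_insert, Finset.notMem_empty, or_false] at hk hn
          subst hk
          exact absurd hn (g.n_ne hvJ hi)
      obtain ⟨ℓ, hval, hflat, hlf⟩ := ih hSJ' (by
        intro k hk k' hk' hle'
        rcases Finset.mem_insert.1 (hdown k (Finset.mem_insert_of_mem hk) k' hk' hle') with h | h
        · subst h
          exact absurd (hinj k (hSJ' hk) k' hk' (le_antisymm (hmax k hk) hle') ▸ hk) hvS
        · exact h)
      have hdn : ∀ k ∈ J, key k ≤ key v → k ≠ v → k ∈ S := fun k hk h1 h2 =>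
        (Finset.mem_insert.1 (hdown v (Finset.mem_insert_self _ _) k hk h1)).resolve_left h2
      obtain ⟨i0, hi0, hi0S, hi0f, hi0t⟩ : ∃ i0 ∈ τ v, n v i0 ∈ S ∧ i0 ≠ f ∧
          (v = t → e ≠ f → i0 = e) := by
        by_cases hc : v = t ∧ e ≠ f
        · obtain ⟨rfl, h2⟩ := hc
          exact ⟨e, het, hdn _ (g.nJ v hvJ e het) (htop _ (g.nJ v hvJ e het)) (g.n_ne hvJ het), h2,
            fun _ _ => rfl⟩
        · have : ¬ ∀ i ∈ τ v, i ∉ τ b → key v ≤ key (n v i) := fun h =>
            hvb (hinj v hvJ b hb (le_antisymm (hge v hvJ b hb h) (hbot v hvJ)))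
          push Not at this
          obtain ⟨i, hi, hib, hlt⟩ := this
          exact ⟨i, hi, hdn _ (g.nJ v hvJ i hi) hlt.le (g.n_ne hvJ hi), fun h => hib (h ▸ hfb),
            fun h1 h2 => absurd ⟨h1, h2⟩ hc⟩
      have hwJ := g.nJ v hvJ i0 hi0
      let ℓ' : κ → Option ι := Function.update ℓ v (tr (o v i0) i0 (ℓ (n v i0)))
      have hS : ∀ k ∈ S, ℓ' k = ℓ k := fun k hk =>
        Function.update_of_ne (fun h : k = v => hvS (h ▸ hk)) _ _
      have hv' : ℓ' v = tr (o v i0) i0 (ℓ (n v i0)) := Function.update_self _ _ _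
      have hvalS : ∀ k ∈ S, Valid τ ℓ' k := fun k hk i hi => hval k hk i (hS k hk ▸ hi)
      have hval' : ∀ k ∈ insert v S, Valid τ ℓ' k := by
        intro k hk
        rcases Finset.mem_insert.1 hk with rfl | hk
        · intro j hj
          rw [hv'] at hj
          have := g.valid_tr hwJ (g.o_mem hvJ hi0) (hval _ hi0S) j
            (by rw [g.oo k hvJ i0 hi0]; exact hj)
          rwa [g.nn k hvJ i0 hi0] at this
        · exact hvalS k hk
      have hlf' : ∀ k ∈ insert v S, f ∈ τ k → ℓ' k = some f := by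
        intro k hk hfk
        rcases Finset.mem_insert.1 hk with rfl | hk
        · rw [hv', hlf _ hi0S (g.mem_n hvJ hi0 hfk hi0f.symm)]
          have : f ≠ o k i0 := fun h => g.oN k hvJ i0 hi0 (h ▸ hfk)
          simp [tr, this]
        · rw [hS k hk, hlf k hk hfk]
      have hf0' : Flat n o ℓ' (n v i0) (o v i0) := by
        unfold Flat
        rw [g.nn v hvJ i0 hi0, g.oo v hvJ i0 hi0, hv', hS _ hi0S]
      have hf0 : Flat n o ℓ' v i0 := by
        have := g.flat_symm hwJ (g.o_mem hvJ hi0) (hvalS _ hi0S) hf0'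
        rwa [g.nn v hvJ i0 hi0, g.oo v hvJ i0 hi0] at this
      have hfS : ∀ k ∈ S, ∀ i ∈ τ k, n k i ∈ S → Flat n o ℓ' k i := by
        intro k hk i hi hn
        unfold Flat
        rw [hS k hk, hS _ hn]
        exact hflat k hk i hi hn
      have hfv : ∀ j ∈ τ v, n v j ∈ S → Flat n o ℓ' v j := by
        intro j hj hjS
        by_cases hj0 : j = i0
        · exact hj0 ▸ hf0
        have h1 : (((τ v).erase i0).erase j).card = 1 := by
          rw [Finset.card_erase_of_mem (Finset.mem_erase.2 ⟨hj0, hj⟩),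
            Finset.card_erase_of_mem hi0, g.card v hvJ]
        obtain ⟨c, hc⟩ := Finset.card_eq_one.1 h1
        have hc1 : c ∈ ((τ v).erase i0).erase j := hc ▸ Finset.mem_singleton_self c
        simp only [Finset.mem_erase] at hc1
        obtain ⟨hcj, hci, hcv⟩ := hc1
        have htri : ∀ i ∈ τ v, i ≠ c → i = i0 ∨ i = j := by
          intro i hi hic
          by_contra hcon
          push Not at hcon
          have : i ∈ ((τ v).erase i0).erase j := by simp [hcon.1, hcon.2, hi]
          rw [hc, Finset.mem_singleton] at this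
          exact hic this
        by_cases hcf : c = f
        · subst hcf
          unfold Flat
          rw [hlf' v (Finset.mem_insert_self _ _) hcv,
            hlf' _ (Finset.mem_insert_of_mem hjS) (g.mem_n hvJ hj hcv hcj)]
          simp [tr, hcj]
        have hmaxc : ∀ z ∈ J, c ∈ τ z → key z ≤ key v := by
          intro z hz hcz
          refine hle v hvJ z hz (fun i hi hiz => ?_)
          rcases htri i hi (fun h => hiz (h ▸ hcz)) with rfl | rfl
          · exact hmax _ hi0S
          · exact hmax _ hjS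
        have hce : c ≠ e := by
          rintro rfl
          have : v = t := hinj v hvJ t ht (le_antisymm (htop v hvJ) (hmaxc t ht het))
          exact hci (hi0t this hcf).symm
        have hcS : ∀ z ∈ J, c ∈ τ z → z ∈ insert v S := fun z hz hcz =>
          hdown v (Finset.mem_insert_self _ _) z hz (hmaxc z hz hcz)
        refine g.face_flat ℓ' c (hex v hvJ c hcv hcf hce)
          (fun k hk hck => hval' k (hcS k hk hck)) hvJ hcv hj hcj.symm ?_
        intro k hk hck i hi hic hne1 hne2
        rcases Finset.mem_insert.1 (hcS k hk hck) with rfl | hkS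
        · rcases htri i hi hic with rfl | rfl
          · exact hf0
          · exact absurd ⟨rfl, rfl⟩ hne1
        · rcases Finset.mem_insert.1 (hcS _ (g.nJ k hk i hi) (g.mem_n hk hi hck hic.symm)) with
            hn | hn
          · have ho := g.o_mem hk hi
            have e1 := g.nn k hk i hi
            have e2 := g.oo k hk i hi
            rw [hn] at ho e1 e2
            rcases htri _ ho (fun h => g.oN k hk i hi (h ▸ hck)) with h | h
            · rw [h] at e1 e2
              rw [← e1, ← e2]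
              exact hf0'
            · rw [h] at e1 e2
              exact absurd ⟨e1.symm, e2.symm⟩ hne2
          · exact hfS k hkS i hi hn
      refine ⟨ℓ', hval', ?_, hlf'⟩
      intro k hk i hi hn
      rcases Finset.mem_insert.1 hk with rfl | hkS
      · exact hfv i hi ((Finset.mem_insert.1 hn).resolve_left (g.n_ne hvJ hi))
      · rcases Finset.mem_insert.1 hn with hn | hn
        · have hkJ := hSJ' hkS
          have ho := g.o_mem hkJ hi
          have e1 := g.nn k hkJ i hi
          have e2 := g.oo k hkJ i hi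
          rw [hn] at ho e1 e2
          have := g.flat_symm hvJ ho (hval' v (Finset.mem_insert_self _ _))
            (hfv _ ho (e1.symm ▸ hkS))
          rwa [e1, e2] at this
        · exact hfS k hkS i hi hn
  obtain ⟨ℓ, h1, h2, h3⟩ := main J (Finset.Subset.refl _) (fun _ _ k' hk' _ => hk')
  exact ⟨ℓ, h1, fun k hk i hi => h2 k hk i hi (g.nJ k hk i hi), h3⟩


theorem Cert.lab (h : Cert I J L c x τ) (g : Gr J τ n o)
    (hn : ∀ k ∈ J, ∀ i ∈ τ k, Nb J τ k i (n k i)) (f e : ι) (hf : ∃ k ∈ J, f ∈ τ k)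
    (he : ∃ k ∈ J, e ∈ τ k) (hex : ∀ i ∈ I, i ≠ f → i ≠ e → 3 ∣ deg J τ i) :
    ∃ ℓ : κ → Option ι, (∀ k ∈ J, Valid τ ℓ k) ∧ (∀ k ∈ J, ∀ i ∈ τ k, Flat n o ℓ k i) ∧
      ∀ k ∈ J, f ∈ τ k → ℓ k = some f := by
  obtain ⟨b, hb, hfb⟩ := hf
  obtain ⟨t, ht, het, hbt⟩ : ∃ t ∈ J, e ∈ τ t ∧ b ≠ t := by
    obtain ⟨t, ht, het⟩ := he
    by_cases hbt : b = t
    · subst hbt
      obtain ⟨j, hj⟩ : ((τ b).erase e).Nonempty := by
        rw [← Finset.card_pos, Finset.card_erase_of_mem het, h.card b hb]
        norm_num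
      rw [Finset.mem_erase] at hj
      exact ⟨n b j, g.nJ b hb j hj.2, g.mem_n hb hj.2 het hj.1.symm, (g.n_ne hb hj.2).symm⟩
    · exact ⟨t, ht, het, hbt⟩
  obtain ⟨a0, A, hA0, hA⟩ := h.slack hb
  obtain ⟨a1, A', hA0', hA'⟩ := h.slack ht
  obtain ⟨lam, hlam⟩ := Module.exists_dual_forall_apply_ne_zero (K := ℝ)
    (fun q : {q : J × J // q.1 ≠ q.2} => x q.1.1 - x q.1.2) (by
      rintro ⟨⟨u, v⟩, huv⟩ h0
      exact huv (Subtype.ext (h.x_inj u.2 v.2 (sub_eq_zero.1 h0))))
  have hAn : ∀ k ∈ J, 0 ≤ a0 + A (x k) := fun k hk => by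
    by_cases e : k = b
    · rw [e, hA0]
    · exact (hA k hk e).le
  have hAn' : ∀ k ∈ J, 0 ≤ a1 + A' (x k) := fun k hk => by
    by_cases e : k = t
    · rw [e, hA0']
    · exact (hA' k hk e).le
  have hB : ∀ k ∈ J, 0 < (a0 + a1) + (A + A') (x k) := by
    intro k hk
    simp only [LinearMap.add_apply]
    by_cases e : k = b
    · have := hA' k hk (fun e' => hbt (e.symm.trans e'))
      have := hAn k hk
      linarith
    · have := hA k hk e
      have := hAn' k hk
      linarith
  let φ : κ → ℝ := fun k => (a0 + A (x k)) / ((a0 + a1) + (A + A') (x k))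
  refine g.lab_of_key (fun k => toLex (φ k, lam (x k))) ?_ ?_ ?_ f e
    (fun k hk i hi => hex i (h.sub k hk hi)) b t hb ht hfb het hbt ?_ ?_
  · intro k hk k' hk' he
    by_contra hne
    have h1 : lam (x k) = lam (x k') := congrArg (fun q : ℝ ×ₗ ℝ => (ofLex q).2) he
    apply hlam ⟨(⟨k, hk⟩, ⟨k', hk'⟩), fun e => hne (congrArg Subtype.val e)⟩
    simp only [map_sub]
    rw [h1, sub_self]
  · intro k hk z hz H
    simp only [Prod.Lex.toLex_le_toLex'] at H ⊢
    exact h.lex_mono a0 (a0 + a1) A (A + A') lam hB hk hz (n k) (hn k hk) φ (fun _ => rfl) H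
  · intro k hk z hz H
    simp only [Prod.Lex.toLex_le_toLex'] at H ⊢
    have := h.lex_mono (-a0) (a0 + a1) (-A) (A + A') (-lam) hB hk hz (n k) (hn k hk)
      (fun k => -φ k) (by
        intro k
        simp only [φ, LinearMap.neg_apply]
        rw [← neg_div]
        congr 1
        ring) (by
        intro i hi hiz
        obtain ⟨h1, h2⟩ := H i hi hiz
        refine ⟨neg_le_neg h1, fun e => ?_⟩
        simp only [LinearMap.neg_apply]
        exact neg_le_neg (h2 (neg_inj.1 e).symm))
    refine ⟨neg_le_neg_iff.1 this.1, fun e => ?_⟩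
    have := this.2 (by rw [e])
    simpa using this
  · intro k hk
    by_cases e : k = b
    · rw [e]
    · apply le_of_lt
      rw [Prod.Lex.toLex_lt_toLex]
      left
      simp only [φ, hA0, zero_div]
      exact div_pos (hA k hk e) (hB k hk)
  · intro k hk
    by_cases e : k = t
    · rw [e]
    · apply le_of_lt
      rw [Prod.Lex.toLex_lt_toLex]
      left
      simp only [φ]
      rw [div_lt_div_iff₀ (hB k hk) (hB t ht)]
      simp only [LinearMap.add_apply]
      have h1 := hA' k hk e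
      have h2 := hA t ht (Ne.symm hbt)
      have h3 : a0 + a1 + (A (x t) + A' (x t)) = a0 + A (x t) := by linarith
      rw [h3]
      nlinarith

end

end Pool.Agent.P.MP_b50a78_co
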