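import Pool.Agent.P.MP_b50a78_co.Fin
import Pool.Agent.P.MP_b50a78_co.Sh.Bound

set_option autoImplicit false

namespace Pool.Agent.P.MP_b50a78_co

/-- construction words: hexagon count, start, stable block, end, closing -/
abbrev Wd := ℕ × List ℕ × List ℕ × List ℕ × List ℕ

def wdOK (a b c t : ℕ) (w : Wd) : Bool :=
  baseRun KA st0 (([], []), ([(w.2.1, [([], 0, w.2.2.1)], w.2.2.2.1)], w.2.2.2.2)) ==
    some ((a, b, c, w.1), [t])

def wdA5 : List Wd := [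
  (6, [0, 1, 33], [0, 1, 0, 1, 0, 35, 32, 51, 55],
    [0, 0, 32, 64, 3], []),
  (8, [0, 0, 0, 32, 32, 35, 19], [1, 0, 1, 0, 1, 18, 0, 19, 39],
    [1, 0, 51], []),
  (10, [0, 0, 0, 32, 32, 35, 19], [1, 0, 1, 0, 1, 18, 0, 19, 39],
    [1, 0, 16, 2, 19], []),
  (12, [0, 0, 0, 16, 0, 1, 83, 48, 48, 67, 17], [0, 1, 0, 1, 18, 0, 51, 33],
    [0, 51, 3], []),
  (14, [0, 0, 0, 16, 0, 1, 83, 48, 48, 67, 17], [0, 1, 0, 1, 18, 0, 51, 33],
    [0, 16, 2, 35, 67], []),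
  (16, [0, 0, 0, 16, 0, 1, 83, 48, 48, 67, 17], [0, 1, 0, 1, 18, 0, 51, 33],
    [0, 16, 17, 35, 48, 32, 35], [])]

def wdA6 : List Wd := [
  (7, [0, 1, 33], [0, 1, 0, 1, 0, 35, 32, 51, 55],
    [0, 1, 0, 1, 0, 96, 3], []),
  (9, [0, 1, 33], [0, 1, 0, 1, 0, 35, 32, 51, 55],
    [0, 0, 1, 0, 32, 115, 64, 32, 99], []),
  (11, [0, 0, 0, 32, 32, 35, 19], [1, 0, 1, 0, 1, 18, 0, 19, 39],
    [1, 0, 0, 1, 0, 48, 51], []),
  (13, [0, 0, 0, 32, 32, 35, 83], [1, 0, 1, 0, 1, 18, 0, 19, 39],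
    [1, 0, 1, 0, 1, 0, 1, 0, 99], []),
  (15, [0, 0, 0, 16, 0, 1, 83, 48, 48, 67, 17], [0, 1, 0, 1, 18, 0, 51, 33],
    [0, 0, 1, 67, 32, 48, 51], []),
  (17, [0, 0, 0, 16, 0, 1, 83, 48, 48, 67, 17], [0, 1, 0, 1, 18, 0, 51, 33],
    [0, 0, 1, 67, 1, 17], [0, 48, 51]),
  (19, [0, 0, 0, 16, 0, 1, 83, 48, 48, 67, 17], [0, 1, 0, 1, 18, 0, 51, 33],
    [0, 0, 1, 67, 1, 17], [0, 32, 66, 16, 35])]

def wdB4 : List Wd := [
  (4, [0, 1, 33], [0, 1, 0, 1, 0, 35, 32, 51, 55],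
    [0, 64, 3], []),
  (6, [0, 1, 33], [0, 1, 0, 1, 0, 35, 32, 51, 55],
    [0, 0, 49, 34], [16]),
  (8, [0, 1, 33], [0, 1, 0, 1, 0, 35, 32, 51, 55],
    [0, 0, 16, 1, 0, 65, 35], []),
  (10, [0, 1, 33], [0, 1, 0, 1, 0, 35, 32, 51, 55],
    [0, 0, 16, 0, 1, 65, 34], [32, 51]),
  (12, [0, 0, 0, 67, 1], [0, 1, 0, 1, 0, 35, 32, 51, 55],
    [0, 0, 16, 0, 1, 65, 34], [32, 51]),
  (14, [0, 0, 0, 16, 1, 0, 99, 3, 1], [0, 1, 0, 1, 0, 35, 32, 51, 55],
    [0, 0, 16, 1, 0, 65, 35], []),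
  (16, [0, 0, 0, 16, 1, 0, 99, 3, 1], [0, 1, 0, 1, 0, 35, 32, 51, 55],
    [0, 0, 16, 0, 1, 65, 34], [32, 51])]

def wdB5 : List Wd := [
  (9, [0, 1, 33], [0, 1, 0, 1, 0, 35, 32, 51, 55],
    [0, 0, 0, 1, 0, 81, 34], [48, 35]),
  (11, [0, 0, 0, 67, 1], [0, 1, 0, 1, 0, 35, 32, 51, 55],
    [0, 0, 0, 1, 0, 81, 34], [48, 35]),
  (13, [0, 0, 0, 16, 1, 0, 99, 19, 1], [0, 1, 0, 1, 0, 35, 32, 51, 55],
    [0, 0, 0, 48, 3, 34], [16]),
  (15, [0, 0, 0, 16, 1, 0, 99, 3, 1], [0, 1, 0, 1, 0, 35, 32, 51, 55],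
    [0, 0, 0, 1, 0, 81, 34], [48, 35]),
  (17, [0, 0, 0, 16, 0, 1, 98, 32, 115, 83, 1], [0, 1, 0, 1, 0, 35, 32, 51, 55],
    [0, 0, 0, 1, 0, 81, 34], [48, 35]),
  (19, [0, 0, 0, 16, 0, 1, 98, 16, 115, 2, 17, 50], [0, 0, 1, 16, 18, 48, 83, 66, 39],
    [0, 0, 0, 1, 16, 2, 16, 98, 96, 115], [])]

def wdC4 : List Wd := [
  (4, [0, 1, 33], [0, 1, 0, 1, 0, 35, 32, 51, 55],
    [0, 33, 35], []),
  (6, [0, 0, 0, 67, 1], [0, 1, 0, 1, 0, 35, 32, 51, 55],
    [0, 33, 35], []),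
  (8, [0, 1, 33], [0, 1, 0, 1, 0, 35, 32, 51, 55],
    [0, 16, 0, 0, 50, 0, 51], []),
  (10, [0, 1, 33], [0, 1, 0, 1, 0, 35, 32, 51, 55],
    [0, 16, 0, 0, 50, 34], [16, 48, 51]),
  (12, [0, 0, 0, 67, 1], [0, 1, 0, 1, 0, 35, 32, 51, 55],
    [0, 16, 0, 0, 50, 34], [16, 48, 51]),
  (14, [0, 0, 0, 32, 2, 51, 17], [0, 1, 0, 1, 0, 35, 32, 51, 55],
    [17, 0, 16, 0, 0, 83], [32, 32, 35]),
  (16, [0, 0, 0, 16, 1, 0, 99, 3, 1], [0, 1, 0, 1, 0, 35, 32, 51, 55],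
    [0, 16, 0, 0, 50, 34], [16, 48, 51])]

def wdC5 : List Wd := [
  (5, [0, 1, 33], [0, 1, 0, 1, 0, 35, 32, 51, 55],
    [0, 1, 0, 80, 3], []),
  (7, [0, 1, 33], [0, 1, 0, 1, 0, 35, 32, 51, 55],
    [0, 0, 1, 16, 2, 64, 3], []),
  (9, [0, 1, 33], [0, 1, 0, 1, 0, 35, 32, 51, 55],
    [0, 0, 0, 0, 114], [32, 114, 48, 3]),
  (11, [0, 0, 0, 67, 1], [0, 1, 0, 1, 0, 35, 32, 51, 55],
    [0, 0, 0, 0, 114], [32, 114, 48, 3]),
  (13, [0, 0, 0, 32, 2, 51, 17], [0, 1, 0, 1, 0, 35, 32, 51, 55],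
    [0, 0, 0, 32, 1, 17, 18, 0, 51], []),
  (15, [0, 0, 0, 16, 1, 0, 99, 3, 1], [0, 1, 0, 1, 0, 35, 32, 51, 55],
    [0, 0, 0, 0, 114], [32, 114, 48, 3]),
  (17, [0, 0, 0, 16, 0, 1, 98, 32, 115, 83, 1], [0, 1, 0, 1, 0, 35, 32, 51, 55],
    [0, 0, 0, 0, 114], [32, 114, 48, 3]),
  (19, [0, 0, 0, 16, 0, 1, 83, 0, 48, 65, 51, 3, 1], [0, 1, 0, 1, 0, 35, 32, 51, 55],
    [17, 0, 16, 0, 0, 83], [32, 32, 35])]

theorem wdA5_ok : wdA5.all (wdOK 5 0 0 3) = true := by decide +kernel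

theorem wdA6_ok : wdA6.all (wdOK 6 0 0 6) = true := by decide +kernel

theorem wdB4_ok : wdB4.all (wdOK 4 1 0 2) = true := by decide +kernel

theorem wdB5_ok : wdB5.all (wdOK 5 1 0 5) = true := by decide +kernel

theorem wdC4_ok : wdC4.all (wdOK 4 0 1 1) = true := by decide +kernel

theorem wdC5_ok : wdC5.all (wdOK 5 0 1 4) = true := by decide +kernel

theorem wd_sound {a b c t : ℕ} {l : List Wd} (hl : l.all (wdOK a b c t) = true) {a' m t' : ℕ}
    (α : ℕ) (ha : a' = a + 2 * α) (ht : t' = t + 6 * α) (hm : ∃ w ∈ l, m = w.1 + 6 * α) :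
    PolyM (sm a' b c m + ({t'} : Multiset ℕ).map (6 + ·)) := by
  obtain ⟨w, hw, rfl⟩ := hm
  have h := List.all_eq_true.1 hl w hw
  have h1 : Full KA st0 (t ::ₘ 0) a b c w.1 := baseRun_sound (by simpa [wdOK] using h)
  have h2 := (h1.ins α 0 0 (by simp [allowed, KA])).exact rfl rfl
  rw [ha, ht]
  simpa using h2

/-- all admissible numbers of hexagons occur -/
theorem sharp_exists {a b c t m : ℕ} (hbc : b + c ≤ 1) (ht : 1 ≤ t)
    (hE : 3 * a + 2 * b + c = 12 + t) (h1 : m % 2 = (a + b + c + 1) % 2)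
    (h2 : 3 * (a + b + c + 1) + 2 * (t % 2) ≤ m + 14 + 2 * c) :
    PolyM (sm a b c m + ({t} : Multiset ℕ).map (6 + ·)) := by
  by_cases h3 : 3 * (a + b + c + 1) ≤ m
  · exact comb ⟨by simpa using hE, by simpa using ht⟩ (by simpa using h3)
      (fun _ => by simpa using h1)
  obtain ⟨rfl, rfl⟩ | ⟨rfl, rfl⟩ | ⟨rfl, rfl⟩ :
    (b = 0 ∧ c = 0) ∨ (b = 1 ∧ c = 0) ∨ (b = 0 ∧ c = 1) := by omega
  all_goals rcases Nat.mod_two_eq_zero_or_one a with h4 | h4
  · refine wd_sound wdA6_ok ((a - 6) / 2) (by omega) (by omega) ?_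
    simp only [wdA6, List.mem_cons, List.not_mem_nil, or_false, exists_eq_or_imp, exists_eq_left]
    omega
  · refine wd_sound wdA5_ok ((a - 5) / 2) (by omega) (by omega) ?_
    simp only [wdA5, List.mem_cons, List.not_mem_nil, or_false, exists_eq_or_imp, exists_eq_left]
    omega
  · refine wd_sound wdB4_ok ((a - 4) / 2) (by omega) (by omega) ?_
    simp only [wdB4, List.mem_cons, List.not_mem_nil, or_false, exists_eq_or_imp, exists_eq_left]
    omega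
  · refine wd_sound wdB5_ok ((a - 5) / 2) (by omega) (by omega) ?_
    simp only [wdB5, List.mem_cons, List.not_mem_nil, or_false, exists_eq_or_imp, exists_eq_left]
    omega
  · refine wd_sound wdC4_ok ((a - 4) / 2) (by omega) (by omega) ?_
    simp only [wdC4, List.mem_cons, List.not_mem_nil, or_false, exists_eq_or_imp, exists_eq_left]
    omega
  · refine wd_sound wdC5_ok ((a - 5) / 2) (by omega) (by omega) ?_
    simp only [wdC5, List.mem_cons, List.not_mem_nil, or_false, exists_eq_or_imp, exists_eq_left]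
    omega

theorem sharp_arith {a b c d m s l n o p q : ℕ} (hbc : b + c ≤ 1)
    (hE : 3 * a + 2 * b + c = 6 + d) (h1 : d + 3 * a + 4 * b + 5 * c + 6 * m = 12 * s)
    (h2 : d + 3 * n + 4 * o + 5 * p + 6 * q = 3 * s) (h3 : d ≤ s + l) (h4 : l + n = a)
    (h5 : o ≤ b) (h6 : p ≤ c) :
    m % 2 = (a + b + c + 1) % 2 ∧ 3 * (a + b + c + 1) + 2 * (d % 2) ≤ m + 14 + 2 * c := by
  have e1 : o = b ∧ p = c := by omega
  obtain ⟨rfl, rfl⟩ := e1
  have e2 : s + 2 = a + n + 2 * o + 2 * p + 2 * q := by omega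
  have e3 : m + a + o + p = 2 * s + 1 := by omega
  have e4 : d + 2 ≤ 2 * a + 2 * o + 2 * p + 2 * q := by omega
  have e5 : d + d % 2 + 2 ≤ 2 * a + 2 * o + 2 * p + 2 * q := by omega
  omega

open Classical in
/-- the lower bound -/
theorem sharp_lower {a b c d m : ℕ} (hbc : b + c ≤ 1) (hd : 7 ≤ d)
    (hE : 3 * a + 2 * b + c = 6 + d)
    (h : Poly (fun k => if k = 6 then m else if k = 3 then a else if k = 4 then b else
      if k = 5 then c else if k = d then 1 else 0)) :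
    m % 2 = (a + b + c + 1) % 2 ∧ 3 * (a + b + c + 1) + 2 * (d % 2) ≤ m + 14 + 2 * c := by
  obtain ⟨I, J, L, c', τ, hc, hf⟩ := Poly.cert h
  have h3 : (I.filter (fun i => deg J τ i = 3)).card = a := by simpa using hf 3
  have h4 : (I.filter (fun i => deg J τ i = 4)).card = b := by simpa using hf 4
  have h5 : (I.filter (fun i => deg J τ i = 5)).card = c := by simpa using hf 5
  have h6 : (I.filter (fun i => deg J τ i = 6)).card = m := by simpa using hf 6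
  have hD : (I.filter (fun i => deg J τ i = d)).card = 1 := by
    rw [hf, if_neg (by omega), if_neg (by omega), if_neg (by omega), if_neg (by omega), if_pos rfl]
  obtain ⟨f, hf1⟩ := Finset.card_eq_one.1 hD
  have hf2 : f ∈ I.filter (fun i => deg J τ i = d) := hf1 ▸ Finset.mem_singleton_self f
  obtain ⟨hfI, hfd⟩ := Finset.mem_filter.1 hf2
  have hdeg : ∀ i ∈ I, i ≠ f →
      deg J τ i = 3 ∨ deg J τ i = 4 ∨ deg J τ i = 5 ∨ deg J τ i = 6 := by
    intro i hi hne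
    by_contra hcon
    push Not at hcon
    have e1 := hf (deg J τ i)
    have e2 : 0 < (I.filter (fun j => deg J τ j = deg J τ i)).card :=
      Finset.card_pos.2 ⟨i, Finset.mem_filter.2 ⟨hi, rfl⟩⟩
    have e3 : deg J τ i ≠ d := fun e => hne (by
      have : i ∈ I.filter (fun i => deg J τ i = d) := Finset.mem_filter.2 ⟨hi, e⟩
      rwa [hf1, Finset.mem_singleton] at this)
    simp only [if_neg hcon.1, if_neg hcon.2.1, if_neg hcon.2.2.1, if_neg hcon.2.2.2,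
      if_neg e3] at e1
    omega
  have hsum : ∀ G ⊆ I, f ∈ G → ∑ i ∈ G, deg J τ i = d +
      3 * (G.filter (fun i => deg J τ i = 3)).card + 4 * (G.filter (fun i => deg J τ i = 4)).card +
      5 * (G.filter (fun i => deg J τ i = 5)).card +
      6 * (G.filter (fun i => deg J τ i = 6)).card := by
    intro G hG hfG
    have e1 : ∑ i ∈ G, deg J τ i = ∑ i ∈ G, ((if i = f then d else 0) +
        3 * (if deg J τ i = 3 then 1 else 0) + 4 * (if deg J τ i = 4 then 1 else 0) +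
        5 * (if deg J τ i = 5 then 1 else 0) + 6 * (if deg J τ i = 6 then 1 else 0)) := by
      refine Finset.sum_congr rfl (fun i hi => ?_)
      by_cases hi' : i = f
      · rw [hi', hfd, if_pos rfl, if_neg (by omega), if_neg (by omega), if_neg (by omega),
          if_neg (by omega)]
        omega
      · rcases hdeg i (hG hi) hi' with e | e | e | e <;> simp [hi', e]
    rw [e1]
    simp only [Finset.sum_add_distrib, ← Finset.mul_sum, ← Finset.card_filter]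
    rw [Finset.sum_ite_eq' G f, if_pos hfG]
  have hne : ∀ i, 0 < deg J τ i → ∃ k ∈ J, i ∈ τ k := by
    intro i hi
    obtain ⟨k, hk⟩ : (J.filter (fun k => i ∈ τ k)).Nonempty := Finset.card_pos.1 hi
    exact ⟨k, (Finset.mem_filter.1 hk).1, (Finset.mem_filter.1 hk).2⟩
  have hT : (I.filter (fun i => deg J τ i = 4 ∨ deg J τ i = 5)).card ≤ 1 := by
    rw [Finset.filter_or]
    exact (Finset.card_union_le _ _).trans (by omega)
  obtain ⟨e, he1, he2⟩ : ∃ e, 0 < deg J τ e ∧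
      ∀ i ∈ I, deg J τ i = 4 ∨ deg J τ i = 5 → i = e := by
    by_cases hx : ∃ e ∈ I, deg J τ e = 4 ∨ deg J τ e = 5
    · obtain ⟨e, a1, a2⟩ := hx
      exact ⟨e, by omega, fun i hi hi' => Finset.card_le_one.1 hT i
        (Finset.mem_filter.2 ⟨hi, hi'⟩) e (Finset.mem_filter.2 ⟨a1, a2⟩)⟩
    · exact ⟨f, by omega, fun i hi hi' => absurd ⟨i, hi, hi'⟩ hx⟩
  obtain ⟨s, G, hG, hfG, e1, e2, e3⟩ := hc.bound f e (hne f (by omega)) (hne e he1)
    (fun i hi h1 h2 => by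
      have := he2 i hi
      rcases hdeg i hi h1 with e | e | e | e
      · simp [e]
      · exact absurd (this (Or.inl e)) h2
      · exact absurd (this (Or.inr e)) h2
      · simp [e])
  have e4 := hsum I (Finset.Subset.refl _) hfI
  have e5 := hsum G hG hfG
  have e6 := hc.sum_deg
  have e7 : ((I \ G).filter (fun i => deg J τ i = 3)).card +
      (G.filter (fun i => deg J τ i = 3)).card = a := by
    rw [← h3, ← Finset.card_union_of_disjoint
      (Finset.disjoint_filter_filter Finset.sdiff_disjoint), ← Finset.filter_union,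
      Finset.sdiff_union_of_subset hG]
  have e8 : (G.filter (fun i => deg J τ i = 4)).card ≤ b :=
    h4 ▸ Finset.card_le_card (Finset.filter_subset_filter _ hG)
  have e9 : (G.filter (fun i => deg J τ i = 5)).card ≤ c :=
    h5 ▸ Finset.card_le_card (Finset.filter_subset_filter _ hG)
  rw [h3, h4, h5, h6] at e4
  exact sharp_arith hbc hE (by omega) (e5.symm.trans e2) (hfd ▸ e3) e7 e8 e9

theorem sharp {a b c d : ℕ} (hbc : b + c ≤ 1) (hd : 7 ≤ d) (hE : 3 * a + 2 * b + c = 6 + d)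
    (m : ℕ) :
    Poly (fun k => if k = 6 then m else if k = 3 then a else if k = 4 then b else
      if k = 5 then c else if k = d then 1 else 0) ↔
    m % 2 = (a + b + c + 1) % 2 ∧ 3 * (a + b + c + 1) + 2 * (d % 2) ≤ m + 14 + 2 * c := by
  refine ⟨sharp_lower hbc hd hE, fun h => ?_⟩
  have := sharp_exists (t := d - 6) hbc (by omega) (by omega) h.1 (by have := h.2; omega)
  unfold PolyM at this
  convert this using 2 with k
  simp only [sm, Multiset.count_add, Multiset.count_replicate, Multiset.map_singleton,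
    Multiset.count_singleton]
  split_ifs <;> omega

end Pool.Agent.P.MP_b50a78_co
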